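import Pool.Agent.K3h83.IN.Stm6
import Pool.Agent.K3h83.OP.NP
import Pool.Agent.K3h51.OP.N6
import Pool.Agent.Y63.AWC.Deg
import Pool.Agent.Q90.WR.Rep

/-!
# Project CY (helper83), brick AS: final assembly of the cyclic case
-/

set_option autoImplicit false
set_option linter.unusedSectionVars false
set_option linter.style.haveILetI false

open scoped BigOperators Classical

noncomputable section

namespace Pool.Agent.K3h33.CY

open Pool.Agent.Helper884 Pool.Agent.K3h3.KB Pool.Agent.K3h3.MK Pool.Agent.K3h83.IN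
open Pool.Agent.H254R3.IN (IsIrr mem_Irr)
open IC (Irr)

section mult

variable {A Y : Type} [Group A] [Fintype A] [Group Y]

theorem res_class (φ : A →* Y) {χ : Y → ℂ} (hχ : IsIrr χ) : IC.IsClass (fun a => χ (φ a)) := by
  intro g y
  show χ (φ (y * g * y⁻¹)) = χ (φ g)
  rw [map_mul, map_mul, map_inv]
  exact hχ.conj _ _

theorem mult_nat (φ : A →* Y) {χ : Y → ℂ} (hχ : IsIrr χ) {θ : A → ℂ} (hθ : IsIrr θ) :
    ∃ n : ℕ, IC.B (fun a => χ (φ a)) θ = n := by
  obtain ⟨V, _, _, _, ρ, hr, rfl⟩ := hχ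
  obtain ⟨W, _, _, _, σ, hs, rfl⟩ := hθ
  exact Pool.Agent.Q90.WR.B_nat (G := A) (ρ.comp φ) σ

theorem sum_eq (φ : A →* Y) {χ : Y → ℂ} (hχ : IsIrr χ) :
    ∃ n : ℕ, ∑ a : A, χ (φ a) = (Nat.card A : ℂ) * n := by
  obtain ⟨V, _, _, _, ρ, hr, rfl⟩ := hχ
  obtain ⟨n, hn⟩ := Pool.Agent.Q90.WR.B_nat (G := A) (ρ.comp φ)
    (Representation.trivial ℂ A ℂ)
  refine ⟨n, ?_⟩
  have h0 : (Nat.card A : ℂ) ≠ 0 := IC.cardG_ne
  have h1 : ∀ a : A, (Representation.trivial ℂ A ℂ).character a = 1 := by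
    intro a
    simp [Representation.character]
  unfold IC.B at hn
  simp only [h1, mul_one] at hn
  rw [← hn, mul_inv_cancel_left₀ h0]
  rfl

theorem vanish_dvd (φ : A →* Y) {χ : Y → ℂ} (hχ : IsIrr χ) (h : ∀ a : A, a ≠ 1 → χ (φ a) = 0) :
    Nat.card A ∣ ndeg χ := by
  obtain ⟨n, hn⟩ := sum_eq φ hχ
  rw [Finset.sum_eq_single 1 (fun a _ ha => h a ha) (fun h => absurd (Finset.mem_univ _) h),
    map_one, ← ndeg_cast hχ] at hn
  exact ⟨n, by exact_mod_cast hn⟩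

end mult

/-- the table of the irreducible characters of `B` -/
structure Tab (p : ℕ) (B Ω : Type) [Group B] (e f : Ω → ℕ) where
  /-- the characters with `P` in the kernel -/
  ξ : ∀ ω, Fin (e ω) → (B → ℂ)
  /-- the other characters -/
  ψ : ∀ ω, Fin (f ω) → (B → ℂ)
  e0 : ∀ ω, 0 < e ω
  f0 : ∀ ω, 0 < f ω
  irrξ : ∀ ω j, IsIrr (ξ ω j)
  irrψ : ∀ ω i, IsIrr (ψ ω i)
  inj : Function.Injective fun m : (Σ ω, Fin (e ω) ⊕ Fin (f ω)) => Sum.elim (ξ m.1) (ψ m.1) m.2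
  sur : ∀ χ : B → ℂ, IsIrr χ → ∃ m : (Σ ω, Fin (e ω) ⊕ Fin (f ω)),
    Sum.elim (ξ m.1) (ψ m.1) m.2 = χ
  reg : ∀ ω i (g : B), ¬ p ∣ orderOf g → ψ ω i g = ∑ j, ξ ω j g
  sing : ∀ ω j (g : B), p ∣ orderOf g → (∑ i, ψ ω i g) + ξ ω j g = 0

section tab

variable {p : ℕ} {B Ω : Type} [Group B] [Fintype B] [Fintype Ω] {e f : Ω → ℕ} (T : Tab p B Ω e f)

/-- the characters of the table -/
def Tab.t (m : Σ ω, Fin (e ω) ⊕ Fin (f ω)) : B → ℂ := Sum.elim (T.ξ m.1) (T.ψ m.1) m.2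

theorem Tab.t_irr (m : Σ ω, Fin (e ω) ⊕ Fin (f ω)) : IsIrr (T.t m) := by
  obtain ⟨ω, j | i⟩ := m
  · exact T.irrξ ω j
  · exact T.irrψ ω i

theorem Tab.t_inj : Function.Injective T.t := T.inj

theorem Tab.B_t (m m' : Σ ω, Fin (e ω) ⊕ Fin (f ω)) :
    IC.B (T.t m) (T.t m') = if m = m' then 1 else 0 := by
  rw [IC.B_irr (T.t_irr m) (T.t_irr m')]
  by_cases h : m = m'
  · rw [if_pos h, if_pos (by rw [h])]
  · rw [if_neg h, if_neg fun h' => h (T.t_inj h')]

theorem Tab.Irr_eq : Irr B = Finset.univ.image T.t := by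
  ext χ
  rw [mem_Irr, Finset.mem_image]
  constructor
  · intro h
    obtain ⟨m, hm⟩ := T.sur χ h
    exact ⟨m, Finset.mem_univ _, hm⟩
  · rintro ⟨m, -, rfl⟩
    exact T.t_irr m

theorem Tab.sum_Irr {M : Type} [AddCommMonoid M] (F : (B → ℂ) → M) :
    ∑ χ ∈ Irr B, F χ = ∑ ω, ((∑ j, F (T.ξ ω j)) + ∑ i, F (T.ψ ω i)) := by
  rw [T.Irr_eq, Finset.sum_image fun a _ b _ h => T.t_inj h, Fintype.sum_sigma]
  exact Finset.sum_congr rfl fun ω _ => Fintype.sum_sum_type _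

/-- class functions which vanish at the `p`-regular elements -/
def Tab.β (ω : Ω) (i : Fin (f ω)) : B → ℂ := T.ψ ω i - ∑ j, T.ξ ω j

theorem Tab.β_class (ω : Ω) (i : Fin (f ω)) : IC.IsClass (T.β ω i) := by
  intro g y
  unfold Tab.β
  simp only [Pi.sub_apply, Finset.sum_apply]
  rw [(T.irrψ ω i).conj g y]
  congr 1
  exact Finset.sum_congr rfl fun j _ => (T.irrξ ω j).conj g y

theorem Tab.β_reg (ω : Ω) (i : Fin (f ω)) (g : B) (hg : ¬ p ∣ orderOf g) : T.β ω i g = 0 := by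
  unfold Tab.β
  rw [Pi.sub_apply, Finset.sum_apply, T.reg ω i g hg, sub_self]

theorem Tab.B_β (F : B → ℂ) (ω : Ω) (i : Fin (f ω)) :
    IC.B F (T.β ω i) = IC.B F (T.ψ ω i) - ∑ j, IC.B F (T.ξ ω j) := by
  unfold Tab.β
  rw [IC.B_comm, IC.B_sub_left, IC.B_sum_left, IC.B_comm (T.ψ ω i)]
  congr 1
  exact Finset.sum_congr rfl fun j _ => IC.B_comm _ _

theorem Tab.vanish {F : B → ℂ} (hF : IC.IsClass F) (h0 : ∀ ω i, IC.B F (T.β ω i) = 0) {g : B}
    (hg : p ∣ orderOf g) : F g = 0 := by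
  have h1 : ∀ ω i, IC.B F (T.ψ ω i) = ∑ j, IC.B F (T.ξ ω j) := fun ω i => by
    have := h0 ω i
    rw [T.B_β] at this
    linear_combination this
  have h2 := congrFun (IC.expand F hF) g
  rw [Finset.sum_apply] at h2
  rw [h2, T.sum_Irr (fun χ => (IC.B F χ • χ) g)]
  refine Finset.sum_eq_zero fun ω _ => ?_
  simp only [Pi.smul_apply, smul_eq_mul, h1]
  have e1 : ∑ i, (∑ j, IC.B F (T.ξ ω j)) * T.ψ ω i g =
      ∑ j, IC.B F (T.ξ ω j) * ∑ i, T.ψ ω i g := by
    rw [← Finset.mul_sum, Finset.sum_mul]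
  rw [e1, ← Finset.sum_add_distrib]
  refine Finset.sum_eq_zero fun j _ => ?_
  rw [← mul_add, add_comm, T.sing ω j g hg, mul_zero]

theorem Tab.B_ne {m : Σ ω, Fin (e ω) ⊕ Fin (f ω)} {ω : Ω} (h : m.1 ≠ ω) (i : Fin (f ω)) :
    IC.B (T.t m) (T.β ω i) = 0 := by
  have h1 : IC.B (T.t m) (T.ψ ω i) = 0 := by
    have := T.B_t m ⟨ω, Sum.inr i⟩
    rw [if_neg (by rintro rfl; exact h rfl)] at this
    exact this
  have h2 : ∀ j, IC.B (T.t m) (T.ξ ω j) = 0 := by
    intro j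
    have := T.B_t m ⟨ω, Sum.inl j⟩
    rw [if_neg (by rintro rfl; exact h rfl)] at this
    exact this
  rw [T.B_β, h1, Finset.sum_eq_zero fun j _ => h2 j, sub_zero]

theorem Tab.B_inl (ω : Ω) (j : Fin (e ω)) (i : Fin (f ω)) : IC.B (T.ξ ω j) (T.β ω i) = -1 := by
  rw [T.B_β]
  have h1 : IC.B (T.ξ ω j) (T.ψ ω i) = 0 := by
    have := T.B_t ⟨ω, Sum.inl j⟩ ⟨ω, Sum.inr i⟩
    rw [if_neg (by simp)] at this
    exact this
  have h2 : ∀ j', IC.B (T.ξ ω j) (T.ξ ω j') = if j = j' then 1 else 0 := by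
    intro j'
    have := T.B_t ⟨ω, Sum.inl j⟩ ⟨ω, Sum.inl j'⟩
    have h : (⟨ω, Sum.inl j⟩ : Σ ω, Fin (e ω) ⊕ Fin (f ω)) = ⟨ω, Sum.inl j'⟩ ↔ j = j' := by simp
    rw [if_congr h rfl rfl] at this
    exact this
  rw [h1, Finset.sum_congr rfl fun j' _ => h2 j', Finset.sum_ite_eq, if_pos (Finset.mem_univ _),
    zero_sub]

theorem Tab.B_inr (ω : Ω) (k i : Fin (f ω)) :
    IC.B (T.ψ ω k) (T.β ω i) = if i = k then 1 else 0 := by
  rw [T.B_β]
  have h1 : IC.B (T.ψ ω k) (T.ψ ω i) = if i = k then 1 else 0 := by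
    have := T.B_t ⟨ω, Sum.inr k⟩ ⟨ω, Sum.inr i⟩
    have h : (⟨ω, Sum.inr k⟩ : Σ ω, Fin (e ω) ⊕ Fin (f ω)) = ⟨ω, Sum.inr i⟩ ↔ i = k := by
      simp [eq_comm]
    rw [if_congr h rfl rfl] at this
    exact this
  have h2 : ∀ j', IC.B (T.ψ ω k) (T.ξ ω j') = 0 := by
    intro j'
    have := T.B_t ⟨ω, Sum.inr k⟩ ⟨ω, Sum.inl j'⟩
    rw [if_neg (by simp)] at this
    exact this
  rw [h1, Finset.sum_eq_zero fun j' _ => h2 j', sub_zero]

theorem Tab.gram (ω : Ω) (i i' : Fin (f ω)) :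
    IC.B (T.β ω i) (T.β ω i') = e ω + if i = i' then 1 else 0 := by
  conv_lhs => rw [Tab.β]
  rw [IC.B_sub_left, IC.B_sum_left, T.B_inr, Finset.sum_congr rfl fun j _ => T.B_inl ω j i',
    Finset.sum_const, Finset.card_univ, Fintype.card_fin]
  have h : (if i' = i then (1 : ℂ) else 0) = if i = i' then 1 else 0 := by
    by_cases h : i = i'
    · rw [if_pos h, if_pos h.symm]
    · rw [if_neg h, if_neg (Ne.symm h)]
  rw [h, nsmul_eq_mul]
  ring

end tab

/-- the order of `X` -/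
theorem card_X {p : ℕ} [Fact p.Prime] {B X : Type} [Group B] [Finite B] [Group X] [Finite X]
    {Q P H : Subgroup B} {ι : B →* X} (hL : LC p Q P H) (hE : EC p Q ι) :
    ∃ s : ℕ, Nat.card X = Nat.card P * s ∧ ¬ p ∣ s := by
  have hp := (Fact.out : p.Prime)
  haveI := hL.nH
  have h1 : Nat.card ι.range * ι.range.index = Nat.card X := Subgroup.card_mul_index _
  have h2 : Nat.card ι.range = Nat.card B :=
    Nat.card_congr (MonoidHom.ofInjective hE.inj).toEquiv.symm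
  have h3 : Nat.card (H ⊔ P : Subgroup B) * (H ⊔ P).index = Nat.card B :=
    Subgroup.card_mul_index _
  obtain ⟨s₁, hs₁⟩ : Nat.card P ∣ Nat.card (H ⊔ P : Subgroup B) :=
    Subgroup.card_dvd_of_le le_sup_right
  have h4 : Nat.card (H ⊔ P : Subgroup B) = Nat.card H * H.relIndex P := by
    rw [← Subgroup.relIndex_sup_left P H, Subgroup.relIndex]
    have h5 := Subgroup.card_mul_index (H.subgroupOf (H ⊔ P))
    rw [← h5]
    congr 1
    exact (Nat.card_congr (Subgroup.subgroupOfEquivOfLe (le_sup_left (a := H) (b := P))).toEquiv)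
  obtain ⟨r', hr'⟩ : H.relIndex P ∣ Nat.card P := Subgroup.relIndex_dvd_card H P
  have h5 : r' * s₁ = Nat.card H := by
    have h6 : H.relIndex P * (r' * s₁) = H.relIndex P * Nat.card H := by
      rw [← mul_assoc, ← hr', ← hs₁, h4, mul_comm]
    have h7 : 0 < H.relIndex P := by
      rcases Nat.eq_zero_or_pos (H.relIndex P) with h | h
      · rw [h, zero_mul] at hr'
        exact absurd hr' Nat.card_pos.ne'
      · exact h
    exact Nat.eq_of_mul_eq_mul_left h7 h6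
  refine ⟨s₁ * (H ⊔ P).index * ι.range.index, ?_, ?_⟩
  · rw [← h1, h2, ← h3, hs₁]
    ring
  · intro h
    rcases hp.dvd_mul.1 h with h | h
    · rcases hp.dvd_mul.1 h with h | h
      · exact hL.cH (h5 ▸ h.mul_left r')
      · exact hL.idx h
    · exact hE.syl h

/-- **AS** -/
theorem t_CN (c1 : C1) (c3 : C3) (c4 : C4) (c5 : C5) (c6 : C6) : CN := by
  intro p _ B X _ _ _ _ Q P H ι hL hE
  have hp := (Fact.out : p.Prime)
  obtain ⟨Ω, _, e, f, ξ, ψ, he, hf, hξ, hψ, hinj, hsur, hreg, hsing⟩ := c3 p B Q P H hL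
  obtain ⟨T⟩ : Nonempty (Tab p B Ω e f) := ⟨⟨ξ, ψ, he, hf, hξ, hψ, hinj, hsur, hreg, hsing⟩⟩
  clear hsing hreg hsur hinj hψ hξ hf he ψ ξ
  haveI := Fintype.ofFinite B
  haveI := Fintype.ofFinite X
  have hPp : p ∣ Nat.card P := by
    have h1 := Subgroup.card_dvd_of_le hL.QP
    rwa [hL.cQ] at h1
  -- the integers
  have hz : ∀ (ω : Ω) (i : Fin (f ω)) (χ : X → ℂ), ∃ z : ℤ, IsIrr χ →
      IC.B (fun b => χ (ι b)) (T.β ω i) = z := by
    intro ω i χ
    by_cases hχ : IsIrr χ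
    · choose n hn using fun θ : {θ : B → ℂ // IsIrr θ} => mult_nat ι hχ θ.2
      refine ⟨(n ⟨T.ψ ω i, T.irrψ ω i⟩ : ℤ) - ∑ j, (n ⟨T.ξ ω j, T.irrξ ω j⟩ : ℤ), fun _ => ?_⟩
      rw [T.B_β]
      push_cast
      rw [hn ⟨T.ψ ω i, T.irrψ ω i⟩,
        Finset.sum_congr rfl fun j _ => hn ⟨T.ξ ω j, T.irrξ ω j⟩]
    · exact ⟨0, fun h => absurd h hχ⟩
  choose u hu using hz
  have hgram : ∀ ω (i i' : Fin (f ω)), ∑ χ ∈ Irr X, u ω i χ * u ω i' χ =
      e ω + if i = i' then 1 else 0 := by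
    intro ω i i'
    have h1 := c1 p B X Q P H ι hL hE (T.β ω i) (T.β ω i') (T.β_class ω i) (T.β_class ω i')
      (T.β_reg ω i) (T.β_reg ω i')
    rw [T.gram ω i i'] at h1
    have h2 : ((∑ χ ∈ Irr X, u ω i χ * u ω i' χ : ℤ) : ℂ) =
        ((e ω + if i = i' then 1 else 0 : ℤ) : ℂ) := by
      push_cast
      rw [← h1]
      refine Finset.sum_congr rfl fun χ hχ => ?_
      rw [hu ω i χ (mem_Irr.mp hχ), hu ω i' χ (mem_Irr.mp hχ)]
    exact_mod_cast h2
  set S : Ω → Finset (X → ℂ) := fun ω => (Irr X).filter fun χ => ∃ i, u ω i χ ≠ 0 with hS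
  have hC4 := fun ω => c4 (X → ℂ) (Irr X) (e ω) (f ω) (T.e0 ω) (T.f0 ω) (u ω) (hgram ω)
  -- characters in no `S ω`
  have hvan : ∀ χ, IsIrr χ → (∀ ω i, u ω i χ = 0) → Nat.card P ∣ ndeg χ := by
    intro χ hχ h0
    haveI := Fintype.ofFinite P
    refine vanish_dvd (ι.comp P.subtype) hχ fun a ha => ?_
    refine T.vanish (F := fun b => χ (ι b)) (res_class ι hχ)
      (fun ω i => by rw [hu ω i χ hχ, h0, Int.cast_zero]) ?_
    obtain ⟨k, hk⟩ := IsPGroup.iff_orderOf.1 hL.pP a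
    have hk0 : k ≠ 0 := by
      rintro rfl
      rw [pow_zero, orderOf_eq_one_iff] at hk
      exact ha hk
    show p ∣ orderOf (a : B)
    rw [Subgroup.orderOf_coe, hk]
    exact dvd_pow_self p hk0
  obtain ⟨s, hs, hps⟩ := card_X hL hE
  have hdz : ∀ χ, IsIrr χ → (∀ ω i, u ω i χ = 0) → ¬ p ∣ Nat.card X / ndeg χ := by
    intro χ hχ h0 hcon
    obtain ⟨n, hn⟩ := hvan χ hχ h0
    obtain ⟨q, hq⟩ : ndeg χ ∣ Nat.card X :=
      Pool.Agent.Y63.AWC.deg_dvd hχ (ndeg_cast hχ).symm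
    rw [hq, Nat.mul_div_cancel_left _ (ndeg_pos hχ)] at hcon
    apply hps
    have h1 : Nat.card P * s = Nat.card P * (n * q) := by
      rw [← hs, hq, hn, mul_assoc]
    rw [Nat.eq_of_mul_eq_mul_left Nat.card_pos h1]
    exact hcon.mul_left n
  have hcl0 : ∀ χ ∈ Irr X, χ ∉ Finset.univ.biUnion S → cl p (ndeg χ) = 0 := by
    intro χ hχ hU
    have h0 : ∀ ω i, u ω i χ = 0 := by
      intro ω i
      by_contra hne
      exact hU (Finset.mem_biUnion.2 ⟨ω, Finset.mem_univ _, Finset.mem_filter.2 ⟨hχ, i, hne⟩⟩)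
    have h1 : p ∣ ndeg χ := hPp.trans (hvan χ (mem_Irr.mp hχ) h0)
    change cls p _ = 0
    unfold cls
    rw [dif_pos ((ZMod.natCast_eq_zero_iff _ _).2 h1)]
  -- counting
  set Z : Finset (X → ℂ) := (Irr X).filter fun χ => ¬ p ∣ Nat.card X / ndeg χ with hZ
  have hZc : Nat.card (Dz p X) = Z.card := by
    rw [← Fintype.card_coe, ← Nat.card_eq_fintype_card]
    refine Nat.card_congr (Equiv.subtypeEquivRight fun χ => ?_)
    rw [hZ, Finset.mem_filter, mem_Irr]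
  have hB : (Irr B).card = ∑ ω, (e ω + f ω) := by
    rw [T.Irr_eq, Finset.card_image_of_injective _ T.t_inj, Finset.card_univ,
      Fintype.card_sigma]
    refine Finset.sum_congr rfl fun ω _ => ?_
    rw [Fintype.card_sum, Fintype.card_fin, Fintype.card_fin]
  have hlow : ∑ ω, (e ω + f ω) + Z.card ≤ (Irr X).card := by
    have a1 := card_irr X
    have a2 := card_irr B
    have a3 := card_split (p := p) X
    have a4 := card_split (p := p) B
    have a5 := c5 p B X Q P H ι hL hE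
    have a6 := c6 p B X Q P H ι hL hE
    omega
  have hup : (Irr X).card ≤ (Finset.univ.biUnion S).card + Z.card := by
    refine le_trans (Finset.card_le_card ?_) (Finset.card_union_le _ _)
    intro χ hχ
    by_cases h : χ ∈ Finset.univ.biUnion S
    · exact Finset.mem_union_left _ h
    · refine Finset.mem_union_right _ (Finset.mem_filter.2 ⟨hχ, hdz χ (mem_Irr.mp hχ) ?_⟩)
      intro ω i
      by_contra hne
      exact h (Finset.mem_biUnion.2 ⟨ω, Finset.mem_univ _, Finset.mem_filter.2 ⟨hχ, i, hne⟩⟩)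
  have hle : ∀ ω, (S ω).card ≤ e ω + f ω := fun ω => (hC4 ω).1
  have hsig : Finset.univ.biUnion S =
      ((Finset.univ : Finset Ω).sigma S).image fun x : (Σ _ : Ω, (X → ℂ)) => x.2 := by
    ext χ
    simp only [Finset.mem_biUnion, Finset.mem_image, Finset.mem_sigma, Finset.mem_univ, true_and]
    constructor
    · rintro ⟨ω, h⟩
      exact ⟨⟨ω, χ⟩, h, rfl⟩
    · rintro ⟨⟨ω, χ'⟩, h, rfl⟩
      exact ⟨ω, h⟩
  have hsc : ((Finset.univ : Finset Ω).sigma S).card = ∑ ω, (S ω).card := Finset.card_sigma _ _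
  have hsum : ∑ ω, (S ω).card ≤ ∑ ω, (e ω + f ω) := Finset.sum_le_sum fun ω _ => hle ω
  have hic : (Finset.univ.biUnion S).card ≤ ((Finset.univ : Finset Ω).sigma S).card := by
    rw [hsig]
    exact Finset.card_image_le
  have hSe : ∀ ω, (S ω).card = e ω + f ω := by
    have h1 : ∑ ω, (S ω).card = ∑ ω, (e ω + f ω) := by omega
    intro ω
    exact (Finset.sum_eq_sum_iff_of_le fun ω _ => hle ω).mp h1 ω (Finset.mem_univ ω)
  have hinj : Set.InjOn (fun x : (Σ _ : Ω, (X → ℂ)) => x.2)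
      ((Finset.univ : Finset Ω).sigma S : Finset (Σ _ : Ω, (X → ℂ))) := by
    rw [← Finset.card_image_iff, ← hsig]
    omega
  have hdisj : ∀ ω ω' χ, χ ∈ S ω → χ ∈ S ω' → ω = ω' := by
    intro ω ω' χ h h'
    have m1 : (⟨ω, χ⟩ : Σ _ : Ω, (X → ℂ)) ∈ (Finset.univ : Finset Ω).sigma S :=
      Finset.mem_sigma.2 ⟨Finset.mem_univ _, h⟩
    have m2 : (⟨ω', χ⟩ : Σ _ : Ω, (X → ℂ)) ∈ (Finset.univ : Finset Ω).sigma S :=
      Finset.mem_sigma.2 ⟨Finset.mem_univ _, h'⟩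
    have h1 := hinj (Finset.mem_coe.2 m1) (Finset.mem_coe.2 m2) rfl
    exact congrArg Sigma.fst h1
  choose b ε hbinj hbS hε hl hr using fun ω => (hC4 ω).2 (hSe ω)
  have hSim : ∀ ω, S ω = Finset.univ.image (b ω) := by
    intro ω
    symm
    apply Finset.eq_of_subset_of_card_le
    · intro χ hχ
      obtain ⟨m, -, rfl⟩ := Finset.mem_image.1 hχ
      exact hbS ω m
    · rw [hSe ω, Finset.card_image_of_injective _ (hbinj ω), Finset.card_univ, Fintype.card_sum,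
        Fintype.card_fin, Fintype.card_fin]
  have hbI : ∀ ω m, IsIrr (b ω m) := fun ω m => mem_Irr.mp (Finset.mem_filter.1 (hbS ω m)).1
  -- degrees
  have hdeg : ∀ ω m, cl p (ndeg (b ω m)) = cl p (ndeg (T.t ⟨ω, m⟩)) := by
    intro ω m
    set χ := b ω m with hχdef
    set θ := T.t ⟨ω, m⟩ with hθdef
    have hχ : IsIrr χ := hbI ω m
    have hθ : IsIrr θ := T.t_irr _
    have hcls : IC.IsClass ((fun a => χ (ι a)) - (ε ω m : ℂ) • θ) := by
      intro g y
      have e1 : χ (ι (y * g * y⁻¹)) = χ (ι g) := res_class ι hχ g y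
      show χ (ι (y * g * y⁻¹)) - (ε ω m : ℂ) • θ (y * g * y⁻¹) = χ (ι g) - (ε ω m : ℂ) • θ g
      rw [e1, hθ.conj g y]
    have h0 : ∀ ω' i, IC.B ((fun a => χ (ι a)) - (ε ω m : ℂ) • θ) (T.β ω' i) = 0 := by
      intro ω' i
      rw [IC.B_sub_left, IC.B_smul_left, hu ω' i χ hχ]
      by_cases hω : ω = ω'
      · subst hω
        rcases m with j | k
        · rw [hl ω j i]
          rw [show θ = T.ξ ω j from rfl, T.B_inl]
          push_cast
          ring
        · rw [hr ω k i]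
          rw [show θ = T.ψ ω k from rfl, T.B_inr]
          by_cases h : i = k
          · rw [if_pos h, if_pos h]
            push_cast
            ring
          · rw [if_neg h, if_neg h]
            push_cast
            ring
      · have h1 : u ω' i χ = 0 := by
          by_contra hne
          exact hω (hdisj ω ω' χ (hbS ω m)
            (Finset.mem_filter.2 ⟨mem_Irr.mpr hχ, i, hne⟩))
        rw [h1, T.B_ne (m := ⟨ω, m⟩) hω i]
        push_cast
        ring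
    haveI := Fintype.ofFinite Q
    obtain ⟨n₁, hn₁⟩ := sum_eq (ι.comp Q.subtype) hχ
    obtain ⟨n₂, hn₂⟩ := sum_eq Q.subtype hθ
    have h1 : ∑ a : Q, χ ((ι.comp Q.subtype) a) - (ε ω m : ℂ) * ∑ a : Q, θ (Q.subtype a) =
        χ 1 - (ε ω m : ℂ) * θ 1 := by
      rw [Finset.mul_sum, ← Finset.sum_sub_distrib, Finset.sum_eq_single 1]
      · rw [map_one, map_one]
      · intro a _ ha
        have h2 : p ∣ orderOf (a : B) := by
          rw [Subgroup.orderOf_coe]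
          have h3 : orderOf a ∣ p := hL.cQ ▸ orderOf_dvd_natCard a
          rcases (Nat.dvd_prime hp).1 h3 with h4 | h4
          · exact absurd (orderOf_eq_one_iff.1 h4) ha
          · rw [h4]
        exact T.vanish hcls h0 h2
      · intro h
        exact absurd (Finset.mem_univ _) h
    rw [hn₁, hn₂, hL.cQ, ← ndeg_cast hχ, ← ndeg_cast hθ] at h1
    have h2 : ((p : ℤ) * n₁ - ε ω m * (p * n₂)) = ndeg χ - ε ω m * ndeg θ := by
      exact_mod_cast h1
    have h3 : ((ndeg χ : ℤ) : ZMod p) = ((ε ω m * ndeg θ : ℤ) : ZMod p) := by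
      rw [ZMod.intCast_eq_intCast_iff_dvd_sub]
      exact ⟨ε ω m * n₂ - n₁, by linear_combination h2⟩
    have h4 : (ndeg χ : ZMod p) ^ 2 = (ndeg θ : ZMod p) ^ 2 := by
      push_cast at h3
      rw [h3]
      rcases hε ω m with h | h
      · rw [h]; push_cast; ring
      · rw [h]; push_cast; ring
    by_cases h5 : (ndeg θ : ZMod p) = 0
    · have h6 : (ndeg χ : ZMod p) = 0 := by
        rw [h5, zero_pow two_ne_zero] at h4
        exact pow_eq_zero_iff two_ne_zero |>.1 h4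
      exact cl_congr p (h6.trans h5.symm)
    · have h6 : (ndeg χ : ZMod p) ≠ 0 := by
        intro h6
        rw [h6, zero_pow two_ne_zero] at h4
        exact h5 (pow_eq_zero_iff two_ne_zero |>.1 h4.symm)
      exact Pool.Agent.K3h51.OP.cl_sq p h6 h5 h4
  -- the sum
  have hUI : Finset.univ.biUnion S ⊆ Irr X := by
    intro χ hχ
    obtain ⟨ω, -, h⟩ := Finset.mem_biUnion.1 hχ
    exact (Finset.mem_filter.1 h).1
  rw [wt_eq, wt_eq, ← Finset.sum_subset hUI hcl0, hsig, Finset.sum_image hinj, Finset.sum_sigma,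
    T.sum_Irr]
  refine Finset.sum_congr rfl fun ω _ => ?_
  rw [hSim ω, Finset.sum_image fun a _ b _ h => hbinj ω h, Fintype.sum_sum_type]
  congr 1
  · exact Finset.sum_congr rfl fun j _ => hdeg ω (Sum.inl j)
  · exact Finset.sum_congr rfl fun j _ => hdeg ω (Sum.inr j)

end Pool.Agent.K3h33.CY
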